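import Mathlib

set_option autoImplicit false

open Finset

namespace Pool.Agent.H.MP_a39d1e_co

theorem fib (n q₁ q₂ : ℕ) (hn : 0 < n) (T : Finset (Fin 3 → ℕ)) (h1 : ∀ a ∈ T, a 1 < n ∧ a 2 < n)
    (h2 : ∀ a ∈ T, ∀ b ∈ T, n * a 0 + q₁ * a 1 + q₂ * a 2 = n * b 0 + q₁ * b 1 + q₂ * b 2) :
    #T ≤ n * Nat.gcd n (Nat.gcd q₁ q₂) := by
  have : NeZero n := ⟨hn.ne'⟩
  obtain ⟨s, t, hst⟩ : ∃ s t : ZMod n, ((Nat.gcd n (Nat.gcd q₁ q₂) : ℕ) : ZMod n) = q₁ * s + q₂ * t := by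
    have a := congrArg (Int.cast : ℤ → ZMod n) (Nat.gcd_eq_gcd_ab n (Nat.gcd q₁ q₂))
    have b := congrArg (Int.cast : ℤ → ZMod n) (Nat.gcd_eq_gcd_ab q₁ q₂)
    simp only [Int.cast_add, Int.cast_mul, Int.cast_natCast, ZMod.natCast_self, zero_mul, zero_add] at a b
    rw [b] at a
    exact ⟨_, _, by rw [a, add_mul, mul_assoc, mul_assoc]⟩
  obtain ⟨m, hm⟩ := Nat.gcd_dvd_left n (Nat.gcd q₁ q₂)
  generalize Nat.gcd n (Nat.gcd q₁ q₂) = g at *
  have g0 : 0 < g := Nat.pos_of_ne_zero (by rintro rfl; omega)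
  have m0 : 0 < m := Nat.pos_of_ne_zero (by rintro rfl; omega)
  have inj : ∀ x y : ℕ, x < n → y < n → (x : ZMod n) = y → x = y := fun x y hx hy h => by
    rwa [ZMod.natCast_eq_natCast_iff', Nat.mod_eq_of_lt hx, Nat.mod_eq_of_lt hy] at h
  have := card_le_card_of_injOn (s := T ×ˢ range m) (t := (univ : Finset (ZMod n × ZMod n)))
    (fun p => ((p.1 1 : ZMod n) + p.2 * s, (p.1 2 : ZMod n) + p.2 * t)) (fun _ _ => by simp) (by
      rintro ⟨a, c⟩ ha ⟨b, d⟩ hb e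
      simp only [coe_product, Set.mem_prod, mem_coe, mem_range, Prod.mk.injEq] at ha hb e
      have e3 := congrArg (Nat.cast : ℕ → ZMod n) (h2 a ha.1 b hb.1)
      simp only [Nat.cast_add, Nat.cast_mul, ZMod.natCast_self, zero_mul, zero_add] at e3
      have e4 : g * c = g * d := by
        refine inj _ _ (by rw [hm]; exact Nat.mul_lt_mul_of_pos_left ha.2 g0)
          (by rw [hm]; exact Nat.mul_lt_mul_of_pos_left hb.2 g0) ?_
        push_cast
        rw [hst]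
        linear_combination q₁ * e.1 + q₂ * e.2 - e3
      obtain rfl : c = d := Nat.eq_of_mul_eq_mul_left g0 e4
      have e5 := inj _ _ (h1 a ha.1).1 (h1 b hb.1).1 (add_right_cancel e.1)
      have e6 := inj _ _ (h1 a ha.1).2 (h1 b hb.1).2 (add_right_cancel e.2)
      have e7 := h2 a ha.1 b hb.1
      rw [e5, e6] at e7
      have e8 : a 0 = b 0 := Nat.eq_of_mul_eq_mul_left hn (by omega)
      congr 1
      funext i
      fin_cases i
      exacts [e8, e5, e6])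
  rw [card_product, card_range, card_univ, Fintype.card_prod, ZMod.card] at this
  refine Nat.le_of_mul_le_mul_right (this.trans (le_of_eq ?_)) m0
  rw [mul_assoc, ← hm]

theorem gcd_sum (Y : ℕ) : ∑ q ∈ Fintype.piFinset (fun _ : Fin 3 => Ioc 0 Y),
    Nat.gcd (q 0) (Nat.gcd (q 1) (q 2)) ≤ 2 * Y ^ 3 := by
  have a : ∀ q ∈ Fintype.piFinset (fun _ : Fin 3 => Ioc 0 Y), Nat.gcd (q 0) (Nat.gcd (q 1) (q 2)) ≤
      ∑ g ∈ Ioc 0 Y, if ∀ i, g ∣ q i then g else 0 := by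
    intro q hq
    have h0 := mem_Ioc.mp (Fintype.mem_piFinset.mp hq 0)
    refine le_trans (le_of_eq ?_) (single_le_sum (f := fun g => if ∀ i, g ∣ q i then g else 0)
      (fun _ _ => Nat.zero_le _) (a := Nat.gcd (q 0) (Nat.gcd (q 1) (q 2))) (mem_Ioc.mpr
        ⟨Nat.gcd_pos_of_pos_left _ h0.1, (Nat.gcd_le_left _ h0.1).trans h0.2⟩))
    rw [if_pos]
    intro i
    fin_cases i
    exacts [Nat.gcd_dvd_left _ _, (Nat.gcd_dvd_right _ _).trans (Nat.gcd_dvd_left _ _),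
      (Nat.gcd_dvd_right _ _).trans (Nat.gcd_dvd_right _ _)]
  refine (sum_le_sum a).trans ?_
  rw [sum_comm]
  have b : ∀ g ∈ Ioc 0 Y, ((∑ q ∈ Fintype.piFinset (fun _ : Fin 3 => Ioc 0 Y),
      if ∀ i, g ∣ q i then g else 0 : ℕ) : ℝ) ≤ Y ^ 3 * ((g : ℝ) ^ 2)⁻¹ := by
    intro g hg
    have g0 : (0 : ℝ) < g := by exact_mod_cast (mem_Ioc.mp hg).1
    have : filter (fun q : Fin 3 → ℕ => ∀ i, g ∣ q i) (Fintype.piFinset (fun _ : Fin 3 => Ioc 0 Y)) =
        Fintype.piFinset (fun _ : Fin 3 => filter (fun x => g ∣ x) (Ioc 0 Y)) := by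
      ext q
      simp only [mem_filter, Fintype.mem_piFinset, forall_and]
    rw [← sum_filter, this, sum_const, Fintype.card_piFinset, Nat.Ioc_filter_dvd_card_eq_div]
    simp only [prod_const, card_univ, Fintype.card_fin, smul_eq_mul, Nat.cast_mul, Nat.cast_pow]
    have c : (((Y / g : ℕ) : ℝ)) ^ 3 ≤ (Y / g) ^ 3 := pow_le_pow_left₀ (by positivity) Nat.cast_div_le 3
    refine (mul_le_mul_of_nonneg_right c g0.le).trans (le_of_eq ?_)
    field_simp
  have c := sum_le_sum b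
  have d := sum_Ioo_inv_sq_le (α := ℝ) 0 (Y + 1)
  have e : Ioo 0 (Y + 1) = Ioc 0 Y := by ext x; simp only [mem_Ioo, mem_Ioc]; omega
  rw [e] at d
  rw [← mul_sum, ← Nat.cast_sum] at c
  have f := c.trans (mul_le_mul_of_nonneg_left d (by positivity))
  have g : (Y : ℝ) ^ 3 * (2 / ((0 : ℕ) + 1)) = ((2 * Y ^ 3 : ℕ) : ℝ) := by push_cast; ring
  rw [g] at f
  exact_mod_cast f

theorem mean (X : ℕ) : #{p ∈ Fintype.piFinset (fun _ : Fin 3 => range X) ×ˢ
    Fintype.piFinset (fun _ : Fin 3 => range X) | ∑ i, (X + p.1 i) ^ 2 = ∑ i, (X + p.2 i) ^ 2} ≤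
    512 * X ^ 4 := by
  rw [card_eq_sum_card_fiberwise (f := fun p i => 2 * X + p.1 i + p.2 i)
    (t := Fintype.piFinset (fun _ : Fin 3 => Ioc 0 (4 * X))) (by
      intro p hp
      simp only [coe_filter, mem_product, Fintype.mem_piFinset, mem_range, Set.mem_ofPred_eq, mem_coe,
        mem_Ioc] at hp ⊢
      intro i
      have := hp.1.1 i
      have := hp.1.2 i
      omega)]
  refine (sum_le_sum (g := fun q => 4 * X * Nat.gcd (q 0) (Nat.gcd (q 1) (q 2))) fun q hq => ?_).trans ?_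
  · have h0 := mem_Ioc.mp (Fintype.mem_piFinset.mp hq 0)
    refine le_trans ?_ (Nat.mul_le_mul_right _ h0.2)
    rw [← card_image_of_injOn (f := Prod.fst)]
    · refine fib _ _ _ h0.1 _ ?_ ?_
      · simp only [mem_image, mem_filter, mem_product, Fintype.mem_piFinset, mem_range]
        rintro _ ⟨p, ⟨⟨⟨a, -⟩, -⟩, rfl⟩, rfl⟩
        have := a 1
        have := a 2
        simp only
        omega
      · simp only [mem_image, mem_filter, Fin.sum_univ_three]
        rintro _ ⟨p, ⟨⟨-, a⟩, rfl⟩, rfl⟩ _ ⟨r, ⟨⟨-, b⟩, c⟩, rfl⟩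
        have c0 := congrFun c 0
        have c1 := congrFun c 1
        have c2 := congrFun c 2
        simp only at c0 c1 c2 ⊢
        zify at a b c0 c1 c2 ⊢
        refine mul_left_cancel₀ (two_ne_zero (α := ℤ)) ?_
        linear_combination a - b + ((r.1 0 : ℤ) - r.2 0 - (2 * X + p.1 0 + p.2 0)) * c0
          + ((r.1 1 : ℤ) - r.2 1 - (2 * X + p.1 1 + p.2 1)) * c1
          + ((r.1 2 : ℤ) - r.2 2 - (2 * X + p.1 2 + p.2 2)) * c2
    · rintro p hp r hr e
      simp only [coe_filter, mem_filter, Set.mem_ofPred_eq] at hp hr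
      refine Prod.ext e (funext fun i => ?_)
      have a := congrFun hp.2 i
      have b := congrFun hr.2 i
      have c := congrFun e i
      omega
  · rw [← mul_sum]
    refine (Nat.mul_le_mul_left _ (gcd_sum _)).trans (le_of_eq ?_)
    ring

end Pool.Agent.H.MP_a39d1e_co
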