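import Pool.Agent.H.MP_a39d1e_co.Weyl
import Pool.Agent.H.MP_a39d1e_co.Mean

set_option autoImplicit false

open Finset ComplexConjugate

namespace Pool.Agent.H.MP_a39d1e_co

theorem orth {G ι κ : Type} [AddCommGroup G] [Fintype G] [DecidableEq G] (I : Finset ι) (J : Finset κ)
    (π : ι → G) (ρ : κ → G) (c : ι → ℂ) (d : κ → ℂ) :
    ∑ ψ : AddChar G ℂ, (∑ i ∈ I, c i * ψ (π i)) * conj (∑ j ∈ J, d j * ψ (ρ j)) =
      Fintype.card G * ∑ i ∈ I, ∑ j ∈ J, if π i = ρ j then c i * conj (d j) else 0 := by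
  simp only [map_sum, sum_mul_sum]
  rw [sum_comm, mul_sum]
  refine sum_congr rfl fun i _ => ?_
  rw [sum_comm, mul_sum]
  refine sum_congr rfl fun j _ => ?_
  have : ∀ ψ : AddChar G ℂ, c i * ψ (π i) * conj (d j * ψ (ρ j)) = c i * conj (d j) * ψ (π i - ρ j) := by
    intro ψ
    rw [sub_eq_add_neg, ψ.map_add_eq_mul, ψ.map_neg_eq_conj, map_mul]
    ring
  simp only [this, ← mul_sum, AddChar.sum_apply_eq_ite, sub_eq_zero]
  split_ifs <;> ring

theorem orth_le {G ι : Type} [AddCommGroup G] [Fintype G] [DecidableEq G] (I : Finset ι)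
    (π : ι → G) (c : ι → ℂ) (hc : ∀ i, ‖c i‖ = 1) :
    ∑ ψ : AddChar G ℂ, ‖∑ i ∈ I, c i * ψ (π i)‖ ^ 2 ≤
      Fintype.card G * #{p ∈ I ×ˢ I | π p.1 = π p.2} := by
  have h := congrArg norm (orth I I π π c c)
  simp only [Complex.mul_conj, Complex.normSq_eq_norm_sq] at h
  rw [← Complex.ofReal_sum, Complex.norm_real, norm_mul, Complex.norm_natCast, ← sum_product',
    ← sum_filter] at h
  refine ((Real.le_norm_self _).trans h.le).trans (mul_le_mul_of_nonneg_left ?_ (by positivity))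
  refine (norm_sum_le _ _).trans ?_
  simp [hc]

theorem cast_inj (P x y : ℕ) (hx : x < P) (hy : y < P) : (x : ZMod P) = y ↔ x = y := by
  rw [ZMod.natCast_eq_natCast_iff', Nat.mod_eq_of_lt hx, Nat.mod_eq_of_lt hy]

def box (n X : ℕ) : Finset (Fin n → ℕ) := Fintype.piFinset (fun _ : Fin n => range X)

theorem mem_box {n X : ℕ} {a : Fin n → ℕ} : a ∈ box n X ↔ ∀ i, a i < X := by
  simp [box]

theorem card_box (n X : ℕ) : #(box n X) = X ^ n := by simp [box]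

theorem nrm_le {n X : ℕ} {a : Fin n → ℕ} (ha : a ∈ box n X) : ∑ i, (X + a i) ^ 2 ≤ n * (4 * X ^ 2) := by
  have : ∀ i ∈ (univ : Finset (Fin n)), (X + a i) ^ 2 ≤ 4 * X ^ 2 := fun i _ => by
    have := mem_box.mp ha i
    nlinarith
  simpa using sum_le_card_nsmul _ _ _ this

theorem prod_S (n X P : ℕ) (χ : AddChar (ZMod P) ℂ) (z : Fin n → ℂ) :
    ∏ i, S X (χ 1) (z i) =
      ∑ a ∈ box n X, (∏ i, z i ^ (X + a i)) * χ ((∑ i, (X + a i) ^ 2 : ℕ) : ZMod P) := by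
  simp only [S]
  rw [prod_univ_sum]
  refine sum_congr rfl fun a _ => ?_
  rw [prod_mul_distrib, prod_pow_eq_pow_sum, mul_comm, ← nsmul_one, AddChar.map_nsmul_eq_pow]

theorem sixth (X P : ℕ) [NeZero P] (hP : 12 * X ^ 2 < P) (z : ℂ) (hz : ‖z‖ = 1) :
    ∑ χ : AddChar (ZMod P) ℂ, ‖S X (χ 1) z‖ ^ 6 ≤ P * (512 * X ^ 4) := by
  have a := orth_le (box 3 X) (fun a => ((∑ i, (X + a i) ^ 2 : ℕ) : ZMod P))
    (fun a => ∏ i, z ^ (X + a i)) (fun a => by simp [hz])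
  have b := fun χ : AddChar (ZMod P) ℂ => prod_S 3 X P χ (fun _ => z)
  simp only [← b, prod_const, card_univ, Fintype.card_fin, norm_pow, ← pow_mul, ZMod.card] at a
  refine a.trans (mul_le_mul_of_nonneg_left ?_ (by positivity))
  have e : filter (fun p => ((∑ i, (X + p.1 i) ^ 2 : ℕ) : ZMod P) = ((∑ i, (X + p.2 i) ^ 2 : ℕ) : ZMod P))
      (box 3 X ×ˢ box 3 X) = filter (fun p => ∑ i, (X + p.1 i) ^ 2 = ∑ i, (X + p.2 i) ^ 2)
      (box 3 X ×ˢ box 3 X) := filter_congr (fun p hp =>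
    cast_inj _ _ _ (by have := nrm_le (mem_product.mp hp).1; omega)
      (by have := nrm_le (mem_product.mp hp).2; omega))
  rw [e]
  exact_mod_cast mean X

theorem prod_le_sum {ι : Type} (s : Finset ι) (hs : #s = 6) (f : ι → ℝ) (hf : ∀ i, 0 ≤ f i) :
    ∏ j ∈ s, f j ≤ ∑ j ∈ s, f j ^ 6 := by
  obtain ⟨m, m1, m2⟩ := exists_max_image s f (card_pos.mp (by omega))
  refine (prod_le_prod (fun i _ => hf i) m2).trans ?_
  rw [prod_const, hs]
  exact single_le_sum (f := fun j => f j ^ 6) (fun i _ => pow_nonneg (hf i) _) m1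

def sph (X l : ℕ) : Finset (Fin 7 → ℕ) := {a ∈ box 7 X | ∑ i, (X + a i) ^ 2 = l}

theorem sph_big (X : ℕ) (hX : 0 < X) : ∃ l, l < 29 * X ^ 2 ∧ X ^ 5 ≤ 29 * #(sph X l) := by
  have p : 0 < X ^ 2 := by positivity
  obtain ⟨l, l1, l2⟩ := exists_max_image (range (29 * X ^ 2)) (fun l => #(sph X l))
    ⟨0, mem_range.mpr (by omega)⟩
  refine ⟨l, mem_range.mp l1, Nat.le_of_mul_le_mul_right ?_ p⟩
  have := card_le_mul_card_image_of_maps_to (s := box 7 X) (t := range (29 * X ^ 2))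
    (f := fun a => ∑ i, (X + a i) ^ 2) (fun a ha => mem_range.mpr (by have := nrm_le ha; omega)) _ l2
  rw [card_box, card_range] at this
  linarith

theorem sph_sum (E N X l : ℕ) (hl : l < 29 * X ^ 2)
    (hW : ∀ w z : ℂ, ‖w‖ = 1 → ‖z‖ = 1 → E * (‖z ^ N - 1‖ * ‖S X w z‖) ≤ X)
    (z : Fin 7 → ℂ) (hz : ∀ i, ‖z i‖ = 1) (i : Fin 7) :
    E * (‖z i ^ N - 1‖ * ‖∑ a ∈ sph X l, ∏ j, z j ^ (X + a j)‖) ≤ 3072 * X ^ 5 := by
  obtain ⟨P, hP⟩ : ∃ P, P = 29 * X ^ 2 := ⟨_, rfl⟩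
  have : NeZero P := ⟨by omega⟩
  have P0 : (0 : ℝ) < P := by exact_mod_cast (by omega : 0 < P)
  have a := orth (box 7 X) {()} (fun a => ((∑ i, (X + a i) ^ 2 : ℕ) : ZMod P)) (fun _ => (l : ZMod P))
    (fun a => ∏ j, z j ^ (X + a j)) (fun _ => 1)
  simp only [← prod_S, sum_singleton, one_mul, map_one, mul_one, ZMod.card] at a
  have e0 : filter (fun a => ((∑ i, (X + a i) ^ 2 : ℕ) : ZMod P) = (l : ZMod P)) (box 7 X) = sph X l :=
    filter_congr (fun p hp => cast_inj _ _ _ (by have := nrm_le hp; omega) (by omega))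
  rw [← sum_filter, e0] at a
  have b := (congrArg norm a).symm.le.trans (norm_sum_le _ _)
  rw [norm_mul, Complex.norm_natCast] at b
  refine le_of_mul_le_mul_left ?_ P0
  have c := mul_le_mul_of_nonneg_left b (show 0 ≤ E * ‖z i ^ N - 1‖ by positivity)
  rw [mul_sum] at c
  have d : ∀ χ ∈ (univ : Finset (AddChar (ZMod P) ℂ)),
      E * ‖z i ^ N - 1‖ * ‖(∏ j, S X (χ 1) (z j)) * conj (χ l)‖ ≤
        X * ∑ j ∈ univ.erase i, ‖S X (χ 1) (z j)‖ ^ 6 := by
    intro χ _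
    rw [norm_mul, Complex.norm_conj, χ.norm_apply, mul_one, norm_prod, ← mul_prod_erase _ _ (mem_univ i),
      ← mul_assoc, mul_assoc (E : ℝ)]
    exact mul_le_mul (hW _ _ (χ.norm_apply 1) (hz i))
      (prod_le_sum _ (by simp) _ fun _ => norm_nonneg _) (by positivity) (by positivity)
  have e := c.trans (sum_le_sum d)
  rw [← mul_sum, sum_comm] at e
  have f := sum_le_card_nsmul (univ.erase i) _ _ fun j _ => sixth X P (by omega) (z j) (hz j)
  rw [card_erase_of_mem (mem_univ i), card_univ, Fintype.card_fin, nsmul_eq_mul] at f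
  have g := mul_le_mul_of_nonneg_left f (show (0 : ℝ) ≤ X by positivity)
  push_cast at g
  linarith

end Pool.Agent.H.MP_a39d1e_co
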