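import Pool.Agent.H.MP_a39d1e_co.Four

set_option autoImplicit false

open Finset ComplexConjugate

namespace Pool.Agent.H.MP_a39d1e_co

def Avoid (A : Set (Fin 7 → ℕ)) (l : ℕ) : Prop :=
  ∀ x ∈ A, ∀ y ∈ A, ∑ i, ((x i : ℤ) - y i) ^ 2 ≠ l

def ph (M : ℕ) (a : Fin 7 → ℕ) : Fin 7 → ZMod M := fun i => (a i : ZMod M)

theorem chr_sum {G ι : Type} [AddCommGroup G] (ψ : AddChar G ℂ) (s : Finset ι) (f : ι → G) :
    ψ (∑ i ∈ s, f i) = ∏ i ∈ s, ψ (f i) := by
  classical
  induction s using Finset.induction_on with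
  | empty => simp
  | insert a s h ih => rw [sum_insert h, prod_insert h, ψ.map_add_eq_mul, ih]

theorem chr (M : ℕ) (ψ : AddChar (Fin 7 → ZMod M) ℂ) (a : Fin 7 → ℕ) :
    ψ (ph M a) = ∏ i, ψ (Pi.single i 1) ^ a i := by
  have : ph M a = ∑ i, a i • (Pi.single i 1 : Fin 7 → ZMod M) := by
    funext j
    simp [ph, Finset.sum_apply, Pi.single_apply]
  rw [this, chr_sum]
  simp only [AddChar.map_nsmul_eq_pow]

theorem prod_sub_one_le {ι : Type} (s : Finset ι) (f : ι → ℂ) (hf : ∀ i, ‖f i‖ = 1) :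
    ‖∏ i ∈ s, f i - 1‖ ≤ ∑ i ∈ s, ‖f i - 1‖ := by
  classical
  induction s using Finset.induction_on with
  | empty => simp
  | insert a s h ih =>
    rw [sum_insert h, prod_insert h]
    exact (mul_sub_one_le _ _ (hf a)).trans (add_le_add_right ih _)

theorem chr_near (M N L : ℕ) [NeZero M] (ψ : AddChar (Fin 7 → ZMod M) ℂ) (k : Fin 7 → ℕ)
    (hk : k ∈ box 7 L) :
    ‖ψ (ph M fun i => N * k i) - 1‖ ≤ L * ∑ i, ‖ψ (Pi.single i 1) ^ N - 1‖ := by
  rw [chr, mul_sum]
  refine (prod_sub_one_le _ _ fun i => by simp).trans (sum_le_sum fun i _ => ?_)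
  rw [pow_mul]
  refine (pow_sub_one_le _ (by simp) _).trans (mul_le_mul_of_nonneg_right ?_ (norm_nonneg _))
  exact_mod_cast (mem_box.mp hk i).le

theorem count (E N X l L Y M : ℕ) (hM : M = Y + 2 * X) (hX : 0 < X) (hl : l < 29 * X ^ 2)
    (hW : ∀ w z : ℂ, ‖w‖ = 1 → ‖z‖ = 1 → E * (‖z ^ N - 1‖ * ‖S X w z‖) ≤ X)
    (F : Finset (Fin 7 → ℕ)) (hF : F ⊆ box 7 Y) (hA : Avoid F l) (k k' : Fin 7 → ℕ)
    (hk : k ∈ box 7 L) (hk' : k' ∈ box 7 L) :
    E * #{p ∈ (F ×ˢ sph X l) ×ˢ F | ph M p.1.1 + ph M (fun i => X + p.1.2 i) + ph M (fun i => N * k' i) =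
      ph M p.2 + ph M (fun i => N * k i)} ≤ Y ^ 7 * (2 * L * (7 * (3072 * X ^ 5))) := by
  have : NeZero M := ⟨by omega⟩
  have a := orth (F ×ˢ sph X l) F
    (fun p => ph M p.1 + ph M (fun i => X + p.2 i) + ph M (fun i => N * k' i))
    (fun b => ph M b + ph M (fun i => N * k i)) (fun _ => 1) (fun _ => 1)
  have b := orth (F ×ˢ sph X l) F (fun p => ph M p.1 + ph M (fun i => X + p.2 i)) (ph M)
    (fun _ => 1) (fun _ => 1)
  have c := orth_le F (ph M) (fun _ => 1) (fun _ => norm_one)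
  rw [sum_eq_zero (s := F ×ˢ sph X l), mul_zero] at b
  swap
  · intro p hp
    refine sum_eq_zero fun y hy => if_neg fun e => ?_
    obtain ⟨p1, p2⟩ := mem_product.mp hp
    obtain ⟨p3, p4⟩ := mem_filter.mp p2
    refine hA y hy p.1 p1 ?_
    rw [← p4]
    push_cast
    refine sum_congr rfl fun i _ => ?_
    have e1 : ((p.1 i + (X + p.2 i) : ℕ) : ZMod M) = (y i : ℕ) := by
      rw [Nat.cast_add]; exact congrFun e i
    have q1 := mem_box.mp (hF p1) i
    have q2 := mem_box.mp (hF hy) i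
    have q3 := mem_box.mp p3 i
    rw [cast_inj _ _ _ (by omega) (by omega)] at e1
    rw [← e1]
    push_cast
    ring
  have c2 : #{p ∈ F ×ˢ F | ph M p.1 = ph M p.2} ≤ Y ^ 7 := by
    rw [← card_box 7 Y]
    refine card_le_card_of_injOn Prod.fst (fun p hp => hF (mem_product.mp (mem_filter.mp hp).1).1) ?_
    intro p hp q hq e
    obtain ⟨p1, p2⟩ := mem_filter.mp hp
    obtain ⟨q1, q2⟩ := mem_filter.mp hq
    refine Prod.ext e (funext fun i => ?_)
    have r1 := mem_box.mp (hF (mem_product.mp p1).2) i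
    have r2 := mem_box.mp (hF (mem_product.mp q1).2) i
    rw [← cast_inj M _ _ (by omega) (by omega)]
    exact congrFun (p2.symm.trans (e ▸ q2)) i
  have c3 : (#{p ∈ F ×ˢ F | ph M p.1 = ph M p.2} : ℝ) ≤ Y ^ 7 := by exact_mod_cast c2
  replace c := c.trans (mul_le_mul_of_nonneg_left c3 (by positivity))
  simp only [one_mul, map_one, mul_one] at a b c
  rw [← sum_product', ← sum_filter, sum_const, nsmul_eq_mul, mul_one] at a
  have d := congrArg₂ (· - ·) a b
  simp only [← sum_sub_distrib, sub_zero] at d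
  have e := (congrArg norm d).symm.le.trans (norm_sum_le _ _)
  rw [norm_mul, Complex.norm_natCast, Complex.norm_natCast] at e
  have G0 : (0 : ℝ) < Fintype.card (Fin 7 → ZMod M) := by exact_mod_cast Fintype.card_pos
  have f := mul_le_mul_of_nonneg_left e (show (0 : ℝ) ≤ E by positivity)
  rw [mul_sum] at f
  have g := f.trans (sum_le_sum (g := fun ψ : AddChar (Fin 7 → ZMod M) ℂ =>
    ‖∑ i ∈ F, ψ (ph M i)‖ ^ 2 * (2 * L * (7 * (3072 * X ^ 5)))) fun ψ _ => by
      simp only [ψ.map_add_eq_mul, ← sum_mul, sum_product, ← mul_sum, map_mul]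
      have h1 := sph_sum E N X l hl hW (fun i => ψ (Pi.single i 1)) (fun i => ψ.norm_apply _)
      have h2 := sum_le_card_nsmul univ _ _ fun i _ => h1 i
      rw [← mul_sum, ← sum_mul, card_univ, Fintype.card_fin, nsmul_eq_mul] at h2
      simp only [← chr] at h2
      have h3 := chr_near M N L ψ k hk
      have h4 := chr_near M N L ψ k' hk'
      have h5 := mul_sub_one_le (ψ (ph M fun i => N * k' i)) (conj (ψ (ph M fun i => N * k i)))
        (ψ.norm_apply _)
      rw [← map_one conj, ← map_sub, Complex.norm_conj] at h5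
      simp only [map_one] at h5
      generalize ψ (ph M fun i => N * k' i) = t' at *
      generalize ψ (ph M fun i => N * k i) = t at *
      generalize ∑ i ∈ F, ψ (ph M i) = u at *
      generalize ∑ a ∈ sph X l, ψ (ph M fun i => X + a i) = σ at *
      have h6 : u * σ * t' * (conj u * conj t) - u * σ * conj u = u * conj u * (σ * (t' * conj t - 1)) := by
        ring
      rw [h6, norm_mul, norm_mul, norm_mul, Complex.norm_conj, ← sq, mul_left_comm]
      refine mul_le_mul_of_nonneg_left ?_ (by positivity)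
      have h7 := mul_le_mul_of_nonneg_left (h5.trans (add_le_add h4 h3))
        (show 0 ≤ E * ‖σ‖ by positivity)
      have h8 := mul_le_mul_of_nonneg_left h2 (show (0 : ℝ) ≤ 2 * L by positivity)
      push_cast at h8
      linarith)
  rw [← sum_mul] at g
  have h := g.trans (mul_le_mul_of_nonneg_right c (by positivity))
  rw [mul_left_comm, mul_assoc] at h
  exact_mod_cast le_of_mul_le_mul_left h G0

theorem step (L : ℕ) : ∃ N W l : ℕ, 0 < N ∧ 0 < l ∧ ∀ A, Avoid A l →
    ∃ x ∈ box 7 W, ∀ k ∈ box 7 L, (fun i => x i + N * k i) ∉ A := by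
  classical
  obtain ⟨E, hE⟩ : ∃ E, E = 29 * (L ^ 7 * L ^ 7) * (128 * (2 * L * (7 * 3072))) + 1 := ⟨_, rfl⟩
  obtain ⟨N, X, N0, X0, hW⟩ := weyl E (by omega)
  obtain ⟨l, l1, l2⟩ := sph_big X X0
  have X5 : 0 < X ^ 5 := by positivity
  obtain ⟨W, hW'⟩ : ∃ W, W = 2 * X + N * L := ⟨_, rfl⟩
  refine ⟨N, W + 2 * X, l, N0, ?_, fun A hA => ?_⟩
  · obtain ⟨a, ha⟩ := card_pos.mp (show 0 < #(sph X l) by omega)
    rw [← (mem_filter.mp ha).2]
    exact sum_pos (fun i _ => by positivity) univ_nonempty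
  by_contra hc
  push Not at hc
  let F := filter (· ∈ A) (box 7 (2 * W))
  have nl : ∀ k ∈ box 7 L, ∀ i, N * k i ≤ N * L := fun k hk i =>
    Nat.mul_le_mul_left _ (mem_box.mp hk i).le
  have a : box 7 W ×ˢ sph X l ⊆ (box 7 L ×ˢ box 7 L).biUnion fun k => filter (fun p =>
      (fun i => p.1 i + N * k.1 i) ∈ F ∧ (fun i => p.1 i + (X + p.2 i) + N * k.2 i) ∈ F)
      (box 7 W ×ˢ sph X l) := by
    intro p hp
    obtain ⟨p1, p2⟩ := mem_product.mp hp
    have p3 := mem_box.mp p1
    have p4 := mem_box.mp (mem_filter.mp p2).1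
    obtain ⟨k, k1, k2⟩ := hc p.1 (mem_box.mpr fun i => by have := p3 i; omega)
    obtain ⟨k', k3, k4⟩ := hc (fun i => p.1 i + (X + p.2 i))
      (mem_box.mpr fun i => by have := p3 i; have := p4 i; omega)
    refine mem_biUnion.mpr ⟨(k, k'), mem_product.mpr ⟨k1, k3⟩, mem_filter.mpr ⟨hp,
      mem_filter.mpr ⟨mem_box.mpr fun i => ?_, k2⟩, mem_filter.mpr ⟨mem_box.mpr fun i => ?_, k4⟩⟩⟩
    · have := p3 i
      have := nl k k1 i
      simp only
      omega
    · have := p3 i
      have := p4 i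
      have := nl k' k3 i
      simp only
      omega
  have b := Nat.mul_le_mul_left E ((card_le_card a).trans card_biUnion_le)
  rw [mul_sum] at b
  have c := b.trans (sum_le_card_nsmul _ _ ((2 * W) ^ 7 * (2 * L * (7 * (3072 * X ^ 5)))) fun k hk => by
    refine le_trans (Nat.mul_le_mul_left E ?_) (count E N X l L (2 * W) _ rfl X0 l1 hW F
      (filter_subset _ _) (fun x hx y hy => hA x (mem_filter.mp hx).2 y (mem_filter.mp hy).2)
      k.1 k.2 (mem_product.mp hk).1 (mem_product.mp hk).2)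
    refine card_le_card_of_injOn (fun p => ((fun i => p.1 i + N * k.1 i, p.2),
      fun i => p.1 i + (X + p.2 i) + N * k.2 i)) (fun p hp => ?_) (fun p _ q _ e => ?_)
    · obtain ⟨p1, p2, p3⟩ := mem_filter.mp hp
      refine mem_filter.mpr ⟨mem_product.mpr ⟨mem_product.mpr ⟨p2, (mem_product.mp p1).2⟩, p3⟩, ?_⟩
      funext i
      simp only [ph, Pi.add_apply]
      push_cast
      ring
    · simp only [Prod.mk.injEq] at e
      exact Prod.ext (funext fun i => Nat.add_right_cancel (congrFun e.1.1 i)) e.1.2)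
  rw [card_product, card_product, card_box, card_box, smul_eq_mul] at c
  have W0 : 0 < W ^ 7 * X ^ 5 := by have : 0 < W := by omega
                                    positivity
  have d := Nat.mul_le_mul_left (E * W ^ 7) l2
  have e : E * (W ^ 7 * X ^ 5) ≤ (E - 1) * (W ^ 7 * X ^ 5) := by
    have : E - 1 = 29 * (L ^ 7 * L ^ 7) * (128 * (2 * L * (7 * 3072))) := by omega
    rw [this]
    linarith
  have := Nat.le_of_mul_le_mul_right e W0
  omega

theorem cover (m : ℕ) : ∃ L : ℕ, ∃ l : Fin m → ℕ, (∀ j, 0 < l j) ∧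
    ∀ A : Fin m → Set (Fin 7 → ℕ), (∀ j, Avoid (A j) (l j)) → ∃ k ∈ box 7 L, ∀ j, k ∉ A j := by
  induction m with
  | zero => exact ⟨1, Fin.elim0, fun j => j.elim0, fun _ _ => ⟨0, mem_box.mpr (by simp), fun j => j.elim0⟩⟩
  | succ m ih =>
    obtain ⟨L, l, l0, h⟩ := ih
    obtain ⟨N, W, l', N0, l1, h'⟩ := step L
    refine ⟨W + N * L, Fin.cons l' fun j => N ^ 2 * l j, ?_, fun A hA => ?_⟩
    · refine Fin.cases l1 fun j => ?_
      have := l0 j
      simp only [Fin.cons_succ]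
      positivity
    · obtain ⟨x, x1, x2⟩ := h' (A 0) (hA 0)
      obtain ⟨k, k1, k2⟩ := h (fun j => {k | (fun i => x i + N * k i) ∈ A j.succ}) (by
        intro j a ha b hb e
        refine hA j.succ _ ha _ hb ?_
        simp only [Fin.cons_succ]
        push_cast
        rw [← e, mul_sum]
        exact sum_congr rfl fun i _ => by ring)
      refine ⟨fun i => x i + N * k i, mem_box.mpr fun i => ?_, Fin.cases (x2 k k1) k2⟩
      have := mem_box.mp x1 i
      have := Nat.mul_le_mul_left N (mem_box.mp k1 i).le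
      omega

end Pool.Agent.H.MP_a39d1e_co
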