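import Mathlib

set_option autoImplicit false

open Finset ComplexConjugate

namespace Pool.Agent.H.MP_a39d1e_co

theorem mul_sub_one_le (a b : ℂ) (ha : ‖a‖ = 1) : ‖a * b - 1‖ ≤ ‖a - 1‖ + ‖b - 1‖ := by
  have : a * b - 1 = (a - 1) + a * (b - 1) := by ring
  rw [this]
  refine (norm_add_le _ _).trans ?_
  rw [norm_mul, ha, one_mul]

theorem pow_sub_one_le (u : ℂ) (hu : ‖u‖ = 1) (t : ℕ) : ‖u ^ t - 1‖ ≤ t * ‖u - 1‖ := by
  induction t with
  | zero => simp
  | succ t ih =>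
    rw [pow_succ']
    refine (mul_sub_one_le _ _ hu).trans ?_
    push_cast
    linarith

theorem pow_sub_one_ge (u : ℂ) (hu : ‖u‖ = 1) (t : ℕ) (h : t * ‖u - 1‖ ≤ 1 / 2) :
    t * ‖u - 1‖ ≤ 2 * ‖u ^ t - 1‖ := by
  have a : ‖∑ j ∈ range t, (u ^ j - 1)‖ ≤ t * (1 / 2) := by
    refine (norm_sum_le _ _).trans ?_
    have : ∀ j ∈ range t, ‖u ^ j - 1‖ ≤ 1 / 2 := by
      intro j hj
      have : (j : ℝ) ≤ t := by exact_mod_cast (mem_range.mp hj).le
      exact (pow_sub_one_le u hu j).trans ((mul_le_mul_of_nonneg_right this (norm_nonneg _)).trans h)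
    simpa using sum_le_card_nsmul _ _ _ this
  have b : (t : ℂ) = ∑ j ∈ range t, u ^ j - ∑ j ∈ range t, (u ^ j - 1) := by
    rw [sum_sub_distrib]; simp
  have c : (t : ℝ) ≤ ‖∑ j ∈ range t, u ^ j‖ + ‖∑ j ∈ range t, (u ^ j - 1)‖ := by
    have := norm_sub_le (∑ j ∈ range t, u ^ j) (∑ j ∈ range t, (u ^ j - 1))
    rwa [← b, Complex.norm_natCast] at this
  rw [← geom_sum_mul, norm_mul, ← mul_assoc]
  exact mul_le_mul_of_nonneg_right (by linarith) (norm_nonneg _)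

theorem diff_le (v : ℂ) (hv : ‖v‖ = 1) (h t : ℕ) :
    ‖v ^ t - 1‖ ≤ ‖v ^ (h + t) - 1‖ + ‖v ^ h - 1‖ := by
  have a : ‖v ^ t - 1‖ = ‖(v ^ (h + t) - 1) - (v ^ h - 1)‖ := by
    have : (v ^ (h + t) - 1) - (v ^ h - 1) = v ^ h * (v ^ t - 1) := by ring
    rw [this, norm_mul, norm_pow, hv, one_pow, one_mul]
  rw [a]
  exact norm_sub_le _ _

theorem geom_le (u : ℂ) (hu : ‖u‖ = 1) (n : ℕ) :
    ‖∑ y ∈ range n, u ^ y‖ ≤ n ∧ ‖∑ y ∈ range n, u ^ y‖ * ‖u - 1‖ ≤ 2 := by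
  constructor
  · refine (norm_sum_le _ _).trans ?_
    simp [hu]
  · rw [← norm_mul, geom_sum_mul]
    refine (norm_sub_le _ _).trans ?_
    rw [norm_pow, hu]
    norm_num

theorem vdc (a : ℕ → ℂ) (n : ℕ) :
    ‖∑ x ∈ range n, a x‖ ^ 2 ≤ 2 * ∑ h ∈ range n, ‖∑ y ∈ range (n - h), a (y + h) * conj (a y)‖ := by
  have key : ∀ n, ‖∑ x ∈ range n, a x‖ ^ 2 ≤
      2 * (∑ x ∈ range n, ∑ h ∈ range (x + 1), a (x - h + h) * conj (a (x - h))).re := by
    intro n
    induction n with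
    | zero => simp
    | succ n ih =>
      have e : ∑ h ∈ range (n + 1), a (n - h + h) * conj (a (n - h)) =
          a n * conj (∑ x ∈ range n, a x) + a n * conj (a n) := by
        rw [← mul_add, ← map_add, ← sum_range_succ, map_sum, mul_sum,
          ← sum_range_reflect (fun j => a n * conj (a j))]
        refine sum_congr rfl fun h hh => ?_
        rw [Nat.sub_add_cancel (Nat.lt_succ_iff.mp (mem_range.mp hh))]
        rfl
      rw [sum_range_succ, sum_range_succ (fun x => ∑ h ∈ range (x + 1), _), e]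
      generalize (∑ x ∈ range n, ∑ h ∈ range (x + 1), a (x - h + h) * conj (a (x - h))) = T at *
      generalize (∑ x ∈ range n, a x) = s at *
      generalize a n = b
      rw [Complex.sq_norm, Complex.normSq_apply] at *
      simp only [Complex.add_re, Complex.add_im, Complex.mul_re, Complex.conj_re, Complex.conj_im]
      nlinarith [mul_self_nonneg b.re, mul_self_nonneg b.im]
  refine (key n).trans ?_
  rw [sum_range_diag_flip n (fun h y => a (y + h) * conj (a y))]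
  have := (Complex.re_le_norm (∑ h ∈ range n, ∑ y ∈ range (n - h), a (y + h) * conj (a y))).trans
    (norm_sum_le _ _)
  linarith

noncomputable def S (X : ℕ) (w z : ℂ) : ℂ := ∑ x ∈ range X, w ^ ((X + x) ^ 2) * z ^ (X + x)

theorem S_sq (X : ℕ) (w z : ℂ) (hw : ‖w‖ = 1) (hz : ‖z‖ = 1) :
    ‖S X w z‖ ^ 2 ≤ 2 * ∑ h ∈ range X, ‖∑ y ∈ range (X - h), ((w ^ 2) ^ h) ^ y‖ := by
  refine (vdc _ X).trans (le_of_eq ?_)
  congr 1
  refine sum_congr rfl fun h _ => ?_
  have : ∑ y ∈ range (X - h), (w ^ ((X + (y + h)) ^ 2) * z ^ (X + (y + h))) *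
      conj (w ^ ((X + y) ^ 2) * z ^ (X + y)) =
      (w ^ (h ^ 2 + 2 * h * X) * z ^ h) * ∑ y ∈ range (X - h), ((w ^ 2) ^ h) ^ y := by
    rw [mul_sum]
    refine sum_congr rfl fun y _ => ?_
    have e : ‖w ^ ((X + y) ^ 2) * z ^ (X + y)‖ = 1 := by simp [hw, hz]
    have e2 : (w ^ ((X + y) ^ 2) * z ^ (X + y)) * conj (w ^ ((X + y) ^ 2) * z ^ (X + y)) = 1 := by
      rw [Complex.mul_conj, Complex.normSq_eq_norm_sq, e]; simp
    have e3 : w ^ ((X + (y + h)) ^ 2) * z ^ (X + (y + h)) = (w ^ (h ^ 2 + 2 * h * X) * z ^ h) *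
        ((w ^ 2) ^ h) ^ y * (w ^ ((X + y) ^ 2) * z ^ (X + y)) := by ring
    rw [e3, mul_assoc, e2, mul_one]
  rw [this, norm_mul]
  simp [hw, hz]

theorem many (E X : ℕ) (hE : 0 < E) (hX : 0 < X) (w z : ℂ) (hw : ‖w‖ = 1) (hz : ‖z‖ = 1)
    (h : (X : ℝ) ≤ 2 * E * ‖S X w z‖) :
    X ≤ 16 * E ^ 2 * #{h ∈ range X | X * ‖(w ^ 2) ^ h - 1‖ ≤ (32 * E ^ 2 : ℕ)} := by
  have hE' : (0 : ℝ) < E := by exact_mod_cast hE
  have hX' : (0 : ℝ) < X := by exact_mod_cast hX
  have a := S_sq X w z hw hz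
  have b : ∀ h ∈ range X, 16 * E ^ 2 * ‖∑ y ∈ range (X - h), ((w ^ 2) ^ h) ^ y‖ ≤
      (if X * ‖(w ^ 2) ^ h - 1‖ ≤ (32 * E ^ 2 : ℕ) then (16 * E ^ 2 * X : ℝ) else 0) + X := by
    intro h _
    obtain ⟨g1, g2⟩ := geom_le ((w ^ 2) ^ h) (by simp [hw]) (X - h)
    have g0 := norm_nonneg (∑ y ∈ range (X - h), ((w ^ 2) ^ h) ^ y)
    generalize ‖∑ y ∈ range (X - h), ((w ^ 2) ^ h) ^ y‖ = g at *
    split_ifs with c
    · have : ((X - h : ℕ) : ℝ) ≤ X := by exact_mod_cast Nat.sub_le _ _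
      have := mul_le_mul_of_nonneg_left (g1.trans this) (show (0 : ℝ) ≤ 16 * E ^ 2 by positivity)
      linarith
    · push_cast at c
      have c1 := mul_le_mul_of_nonneg_left (not_le.mp c).le g0
      have c2 := mul_le_mul_of_nonneg_left g2 hX'.le
      nlinarith
  have c := sum_le_sum b
  rw [← mul_sum, sum_add_distrib, ← sum_filter] at c
  simp only [sum_const, card_range, nsmul_eq_mul] at c
  generalize #{h ∈ range X | X * ‖(w ^ 2) ^ h - 1‖ ≤ (32 * E ^ 2 : ℕ)} = n at *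
  have d : (X : ℝ) ^ 2 ≤ (2 * E * ‖S X w z‖) ^ 2 := pow_le_pow_left₀ hX'.le h 2
  have e : (X : ℝ) * X ≤ (16 * E ^ 2 * n) * X := by
    have := mul_le_mul_of_nonneg_left a (show (0 : ℝ) ≤ 8 * E ^ 2 by positivity)
    nlinarith
  exact_mod_cast le_of_mul_le_mul_right e hX'

theorem sharpen (D J Q R X : ℕ) (hX : X = 4 * D * J) (hD : 0 < D) (hJ : 0 < J) (hQ : 0 < Q)
    (v : ℂ) (hv : ‖v‖ = 1) (H : Finset ℕ) (h1 : ∀ h ∈ H, h < X ∧ X * ‖v ^ h - 1‖ ≤ D)
    (h2 : X / Q + 1 < #H) (h3 : (Q * (4 * D * R)) * (Q * (4 * D + 1)) < #H) :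
    ∃ q, 0 < q ∧ q ≤ Q ∧ R * (X * ‖v ^ q - 1‖) ≤ 1 := by
  have hX' : (0 : ℝ) < X := by rw [hX]; positivity
  have two : ∀ h t, h ∈ H → h + t ∈ H → X * ‖v ^ t - 1‖ ≤ 2 * D := by
    intro h t a b
    have := mul_le_mul_of_nonneg_left (diff_le v hv h t) hX'.le
    linarith [(h1 _ a).2, (h1 _ b).2]
  obtain ⟨q, q1, q2, q3⟩ : ∃ q, 0 < q ∧ q ≤ Q ∧ X * ‖v ^ q - 1‖ ≤ 2 * D := by
    obtain ⟨a, ha, b, hb, ab, e⟩ := exists_ne_map_eq_of_card_lt_of_maps_to (s := H)
      (t := range (X / Q + 1)) (by rwa [card_range]) (f := fun h => h / Q)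
      (fun h hh => mem_coe.mpr (mem_range.mpr (Nat.lt_succ_of_le (Nat.div_le_div_right (h1 h hh).1.le))))
    wlog hlt : a < b generalizing a b
    · exact this b hb a ha ab.symm e.symm (by omega)
    obtain ⟨t, rfl⟩ := Nat.exists_eq_add_of_le hlt.le
    refine ⟨t, by omega, ?_, two a t ha hb⟩
    have p1 := Nat.div_add_mod a Q
    have p2 := Nat.div_add_mod (a + t) Q
    have p3 := Nat.mod_lt (a + t) hQ
    rw [← e] at p2
    omega
  refine ⟨q, q1, q2, ?_⟩
  by_contra hc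
  have hc := not_le.mp hc
  refine absurd h3 (not_lt.mpr ?_)
  have := card_le_mul_card_image_of_maps_to (s := H) (t := range Q ×ˢ range (4 * D + 1))
    (f := fun h => (h % q, h / J)) (fun h hh => by
      refine mem_product.mpr ⟨mem_range.mpr ((Nat.mod_lt _ q1).trans_le q2), mem_range.mpr ?_⟩
      have := (h1 h hh).1
      rw [hX] at this
      exact Nat.lt_succ_of_le (Nat.div_le_of_le_mul (by rw [mul_comm J]; exact this.le)))
    (Q * (4 * D * R)) (fun b _ => by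
      rcases (filter (fun h => (h % q, h / J) = b) H).eq_empty_or_nonempty with he | he
      · rw [he]; simp
      obtain ⟨a, m1, m2⟩ := exists_min_image _ id he
      replace m1 := mem_filter.mp m1
      simp only [id] at m2
      refine (card_le_card (t := Ico a (a + Q * (4 * D * R))) fun h hh => ?_).trans (by simp)
      have m3 := mem_filter.mp hh
      have m4 := Prod.ext_iff.mp (m1.2.trans m3.2.symm)
      simp only at m4
      obtain ⟨t, ht⟩ := (Nat.modEq_iff_dvd' (m2 h hh)).mp m4.1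
      have e : h = a + q * t := by have := m2 h hh; omega
      subst e
      have p1 := Nat.div_add_mod a J
      have p2 := Nat.div_add_mod (a + q * t) J
      have p3 := Nat.mod_lt (a + q * t) hJ
      rw [← m4.2] at p2
      have p4 : t ≤ q * t := Nat.le_mul_of_pos_left _ q1
      have p5 : (t : ℝ) ≤ J := by exact_mod_cast (by omega : t ≤ J)
      have p6 := two a _ m1.1 m3.1
      rw [pow_mul] at p6
      have n0 := norm_nonneg (v ^ q - 1)
      have xe : (X : ℝ) = 4 * D * J := by exact_mod_cast hX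
      have p7 : t * ‖v ^ q - 1‖ ≤ 1 / 2 := by
        refine le_of_mul_le_mul_left ?_ hX'
        have := mul_le_mul p5 q3 (by positivity) (by positivity)
        linarith
      have p8 := mul_le_mul_of_nonneg_left (pow_sub_one_ge _ (by simp [hv]) t p7) hX'.le
      have p9 : t * (X * ‖v ^ q - 1‖) ≤ 4 * D := by linarith
      have p10 : t < 4 * D * R := by
        rcases Nat.eq_zero_or_pos t with h0 | h0
        · rcases Nat.eq_zero_or_pos R with h0' | h0'
          · rw [h0'] at hc; norm_num at hc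
          · rw [h0]; positivity
        · have t0 : (0 : ℝ) < t := by exact_mod_cast h0
          have := mul_lt_mul_of_pos_left hc t0
          have := mul_le_mul_of_nonneg_left p9 (show (0 : ℝ) ≤ R by positivity)
          have : (t : ℝ) < 4 * D * R := by linarith
          exact_mod_cast this
      refine mem_Ico.mpr ⟨by omega, Nat.add_lt_add_left ?_ _⟩
      exact Nat.mul_lt_mul_of_le_of_lt q2 p10 hQ)
  rwa [card_product, card_range, card_range] at this

theorem shift (X N : ℕ) (w z : ℂ) (hw : ‖w‖ = 1) (hz : ‖z‖ = 1) :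
    ‖z ^ N - 1‖ * ‖S X w z‖ ≤ 2 * N + ∑ x ∈ range X, ‖w ^ (N * (2 * (X + x) + N)) - 1‖ := by
  let a : ℕ → ℂ := fun x => w ^ ((X + x) ^ 2) * z ^ (X + x)
  have a1 : ∀ x, ‖a x‖ = 1 := fun x => by simp [a, hw, hz]
  have e1 := sum_range_add a N X
  rw [add_comm N X, sum_range_add a X N] at e1
  have e2 : (z ^ N - 1) * S X w z = (∑ x ∈ range N, a (X + x) - ∑ x ∈ range N, a x) -
      ∑ x ∈ range X, z ^ N * a x * (w ^ (N * (2 * (X + x) + N)) - 1) := by
    have : ∑ x ∈ range X, z ^ N * a x * (w ^ (N * (2 * (X + x) + N)) - 1) =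
        ∑ x ∈ range X, a (N + x) - z ^ N * ∑ x ∈ range X, a x := by
      rw [mul_sum, ← sum_sub_distrib]
      refine sum_congr rfl fun x _ => ?_
      simp only [a]
      ring
    rw [this]
    change _ * ∑ x ∈ range X, a x = _
    linear_combination -e1
  rw [← norm_mul, e2]
  refine (norm_sub_le _ _).trans (add_le_add ((norm_sub_le _ _).trans ?_) ((norm_sum_le _ _).trans ?_))
  · have b1 := norm_sum_le (range N) (fun x => a (X + x))
    have b2 := norm_sum_le (range N) a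
    simp only [a1, sum_const, card_range, nsmul_eq_mul, mul_one] at b1 b2
    linarith
  · refine le_of_eq (sum_congr rfl fun x _ => ?_)
    simp [a1, hz]

theorem weyl (E : ℕ) (hE : 0 < E) : ∃ N X : ℕ, 0 < N ∧ 0 < X ∧ ∀ w z : ℂ, ‖w‖ = 1 → ‖z‖ = 1 →
    E * (‖z ^ N - 1‖ * ‖S X w z‖) ≤ X := by
  obtain ⟨D, hD⟩ : ∃ D, D = 32 * E ^ 2 := ⟨_, rfl⟩
  obtain ⟨N, hN⟩ : ∃ N, N = 2 * D.factorial := ⟨_, rfl⟩
  obtain ⟨R, hR⟩ : ∃ R, R = 10 * N * E := ⟨_, rfl⟩
  obtain ⟨J, hJ⟩ : ∃ J, J = (D * (4 * D * R)) * (D * (4 * D + 1)) + N * E + 1 := ⟨_, rfl⟩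
  obtain ⟨X, hX⟩ : ∃ X, X = 4 * D * J := ⟨_, rfl⟩
  have D0 : 0 < D := by rw [hD]; positivity
  have J0 : 0 < J := by omega
  have N0 : 0 < N := by rw [hN]; positivity
  have X0 : 0 < X := by rw [hX]; positivity
  refine ⟨N, X, N0, X0, fun w z hw hz => ?_⟩
  have E0 : (0 : ℝ) < E := by exact_mod_cast hE
  rcases le_total (X : ℝ) (2 * E * ‖S X w z‖) with h | h
  swap
  · have : ‖z ^ N - 1‖ ≤ 2 := (norm_sub_le _ _).trans (by rw [norm_pow, hz]; norm_num)
    have := mul_le_mul_of_nonneg_right this (show 0 ≤ E * ‖S X w z‖ by positivity)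
    linarith
  have m := many E X hE X0 w z hw hz h
  rw [← hD] at m
  have m2 : 8 * J ≤ #{h ∈ range X | X * ‖(w ^ 2) ^ h - 1‖ ≤ D} := by
    refine Nat.le_of_mul_le_mul_left (c := 16 * E ^ 2) (le_trans (le_of_eq ?_) m) (by positivity)
    rw [hX, hD]; ring
  obtain ⟨q, q1, q2, q3⟩ := sharpen D J D R X hX D0 J0 D0 (w ^ 2) (by simp [hw]) _
    (fun h hh => ⟨mem_range.mp (mem_filter.mp hh).1, (mem_filter.mp hh).2⟩)
    (by
      have : X / D = 4 * J := by rw [hX, mul_right_comm]; exact Nat.mul_div_cancel _ D0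
      omega) (by omega)
  obtain ⟨c, hc⟩ := Nat.dvd_factorial q1 q2
  have c1 : c ≤ N := by
    have : c ≤ q * c := Nat.le_mul_of_pos_left _ q1
    omega
  have nx : 4 * (N * E) ≤ X := by
    have : J ≤ D * J := Nat.le_mul_of_pos_left _ D0
    rw [hX, mul_assoc]; omega
  have nx2 : N ≤ N * E := Nat.le_mul_of_pos_right _ hE
  have b : ∀ x ∈ range X, ‖w ^ (N * (2 * (X + x) + N)) - 1‖ ≤ N * (5 * X) * ‖(w ^ 2) ^ q - 1‖ := by
    intro x hx
    have e : w ^ (N * (2 * (X + x) + N)) = ((w ^ 2) ^ q) ^ (c * (2 * (X + x) + N)) := by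
      rw [← pow_mul, ← pow_mul]
      congr 1
      nth_rewrite 1 [hN, hc]
      ring
    rw [e]
    refine (pow_sub_one_le _ (by simp [hw]) _).trans (mul_le_mul_of_nonneg_right ?_ (norm_nonneg _))
    have := mem_range.mp hx
    exact_mod_cast Nat.mul_le_mul c1 (by omega)
  have s1 := sum_le_card_nsmul _ _ _ b
  rw [card_range, nsmul_eq_mul] at s1
  have s2 := mul_le_mul_of_nonneg_left ((shift X N w z hw hz).trans (add_le_add_right s1 _)) E0.le
  have s3 : (4 : ℝ) * (N * E) ≤ X := by exact_mod_cast nx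
  have s4 := mul_le_mul_of_nonneg_left q3 (show (0 : ℝ) ≤ X by positivity)
  rw [hR] at s4
  push_cast at s4
  linarith

end Pool.Agent.H.MP_a39d1e_co
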